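import Pool.Agent.H.MP_6980f8_al.C

namespace Pool.Agent.Results.MP_6980f8_al.Yes

open Set Topology Quaternion Pool.Agent.H.MP_6980f8_al

theorem inv_cont (n : ℕ) (u : (Matrix (Fin n) (Fin n) ℍ[ℝ])ˣ) :
    ContinuousAt Ring.inverse (u : Matrix (Fin n) (Fin n) ℍ[ℝ]) := by
  letI : NormedRing (Matrix (Fin n) (Fin n) ℍ[ℝ]) := Matrix.linftyOpNormedRing
  haveI : HasSummableGeomSeries (Matrix (Fin n) (Fin n) ℍ[ℝ]) :=
    @instHasSummableGeomSeriesOfCompleteSpace _ _
      (inferInstanceAs (CompleteSpace (Fin n → Fin n → ℍ[ℝ])))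
  exact NormedRing.inverse_continuousAt u

theorem result (n : ℕ) (A : Matrix (Fin n) (Fin n) ℍ[ℝ]) (hA : IsNilpotent A) (p : ℕ)
    (hp : 0 < p) : {X : Matrix (Fin n) (Fin n) ℍ[ℝ] | X ^ p = A} = ∅ ∨
      IsPathConnected {X : Matrix (Fin n) (Fin n) ℍ[ℝ] | X ^ p = A} := by
  rcases eq_empty_or_nonempty {X : Matrix (Fin n) (Fin n) ℍ[ℝ] | X ^ p = A} with h | ⟨X, hX⟩
  · exact Or.inl h
  refine Or.inr ⟨X, hX, fun Y hY => ?_⟩
  let e : Module.End ℍ[ℝ] (Fin n → ℍ[ℝ]) ≃ₐ[ℝ] (Matrix (Fin n) (Fin n) ℍ[ℝ])ᵐᵒᵖ :=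
    (AlgEquiv.opOp ℝ _).trans (AlgEquiv.op (matrixAlgEquivEndVecMulOpposite ℝ).symm)
  letI : TopologicalSpace (Module.End ℍ[ℝ] (Fin n → ℍ[ℝ])) := 
    TopologicalSpace.induced e inferInstance
  have he : IsInducing e := ⟨rfl⟩
  haveI := he.topologicalAddGroup e
  haveI := he.continuousMul e
  haveI : IsTopologicalRing (Module.End ℍ[ℝ] (Fin n → ℍ[ℝ])) := {}
  haveI : ContinuousSMul ℝ (Module.End ℍ[ℝ] (Fin n → ℍ[ℝ])) :=
    he.continuousSMul continuous_id (map_smul e _ _)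
  have k := main (D := ℍ[ℝ]) (V := Fin n → ℍ[ℝ]) ⟨0, 1, 0, 0⟩ (by ext <;> simp) (fun u => ?_)
    (A := e.symm (MulOpposite.op A)) ?_ hp (X := e.symm (MulOpposite.op X))
    (Y := e.symm (MulOpposite.op Y)) (by rw [← map_pow, ← MulOpposite.op_pow, hX])
    (by rw [← map_pow, ← MulOpposite.op_pow, hY])
  · have := k.map (f := fun T => (e T).unop) (MulOpposite.continuous_unop.comp he.continuous)
    simp only [AlgEquiv.apply_symm_apply, MulOpposite.unop_op] at this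
    refine this.mono ?_
    rintro _ ⟨T, hT, rfl⟩
    change (e T).unop ^ p = A
    rw [← MulOpposite.unop_pow, ← map_pow, hT]
    simp
  · rw [he.continuousAt_iff]
    let f : (Module.End ℍ[ℝ] (Fin n → ℍ[ℝ]))ˣ → (Matrix (Fin n) (Fin n) ℍ[ℝ])ˣ := fun v =>
      ⟨(e v).unop, (e ↑v⁻¹).unop, by rw [← MulOpposite.unop_mul, ← map_mul]; simp,
        by rw [← MulOpposite.unop_mul, ← map_mul]; simp⟩
    have e1 : (e ∘ Ring.inverse) = fun T => MulOpposite.op (Ring.inverse (e T).unop) := by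
      funext T
      by_cases hT : IsUnit T
      · obtain ⟨v, rfl⟩ := hT
        rw [Function.comp, Ring.inverse_unit]
        exact congrArg MulOpposite.op (Ring.inverse_unit (f v)).symm
      · rw [Function.comp, Ring.inverse_non_unit _ hT, Ring.inverse_non_unit, map_zero]
        · rfl
        · intro h
          exact hT (by simpa using h.op.map e.symm)
    rw [e1]
    exact MulOpposite.continuous_op.continuousAt.comp (ContinuousAt.comp (g := Ring.inverse)
      (f := fun T => (e T).unop) (x := (u : Module.End ℍ[ℝ] (Fin n → ℍ[ℝ]))) (inv_cont n (f u))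
      (MulOpposite.continuous_unop.comp he.continuous).continuousAt)
  · obtain ⟨m, hm⟩ := hA
    exact ⟨m, by rw [← map_pow, ← MulOpposite.op_pow, hm]; simp⟩

end Pool.Agent.Results.MP_6980f8_al.Yes
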